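import Mathlib

/-!
# Determinants of network type matrices and a Cramer bound (helper8)
-/

set_option autoImplicit false

namespace Pool.Agent.W_MP_78a2de_al_h8

open Finset

section Vec

variable {J : Type} [DecidableEq J]

/-- Exponent vector of a variable; `none` is the variable which is equal to `1`. -/
def vec : Option J → (J → ℤ)
  | none => 0
  | some j => Pi.single j 1

@[simp] theorem vec_none : vec (none : Option J) = 0 := rfl

@[simp] theorem vec_some (j : J) : vec (some j) = Pi.single j 1 := rfl

theorem vec_apply (a : Option J) (j : J) : vec a j = if a = some j then 1 else 0 := by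
  cases a with
  | none => simp
  | some i =>
    by_cases h : i = j
    · subst h; simp
    · simp [h, Ne.symm h]

end Vec

theorem det_network_fin (n : ℕ) (a b : Fin n → Option (Fin n)) :
    |(Matrix.of fun i => vec (a i) - vec (b i)).det| ≤ 1 := by
  induction n with
  | zero => simp
  | succ n ih =>
    set A : Matrix (Fin (n + 1)) (Fin (n + 1)) ℤ := Matrix.of fun i => vec (a i) - vec (b i) with hA
    by_cases hall : ∀ i, (a i = none ↔ b i = none)
    · -- all row sums vanish
      have hz : A.mulVec (fun _ => 1) = 0 := by
        funext i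
        have hsum : ∀ c : Option (Fin (n + 1)), ∑ j, vec c j = if c = none then 0 else 1 := by
          intro c
          cases c with
          | none => simp
          | some j => simp [vec]
        simp only [Matrix.mulVec, dotProduct, mul_one, hA, Matrix.of_apply, Pi.sub_apply,
          Finset.sum_sub_distrib, hsum, Pi.zero_apply]
        by_cases h : a i = none
        · simp [h, (hall i).1 h]
        · have h' : ¬ b i = none := fun hh => h ((hall i).2 hh)
          simp [h, h']
      have h0 : A.det = 0 := by
        rw [← Matrix.exists_mulVec_eq_zero_iff]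
        exact ⟨fun _ => 1, fun h => by simpa using congrFun h 0, hz⟩
      rw [h0]; simp
    · push Not at hall
      obtain ⟨i0, hi0⟩ := hall
      -- row `i0` is `± e_{j0}`
      have hrow : ∃ (j0 : Fin (n + 1)) (ε : ℤ), |ε| = 1 ∧ A i0 = ε • (Pi.single j0 1) := by
        rcases hi0 with ⟨h1, h2⟩ | ⟨h1, h2⟩
        · obtain ⟨j0, hj0⟩ := Option.ne_none_iff_exists'.1 h2
          refine ⟨j0, -1, by simp, ?_⟩
          funext j
          simp [hA, h1, hj0]
        · obtain ⟨j0, hj0⟩ := Option.ne_none_iff_exists'.1 h1
          refine ⟨j0, 1, by simp, ?_⟩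
          funext j
          simp [hA, h2, hj0]
      obtain ⟨j0, ε, hε, hrow⟩ := hrow
      rw [Matrix.det_succ_row A i0]
      rw [Finset.sum_eq_single j0]
      · have hA0 : A i0 j0 = ε := by rw [hrow]; simp
        rw [hA0, abs_mul, abs_mul, hε, abs_pow]
        simp only [abs_neg, abs_one, one_pow, one_mul]
        have := ih (fun i => (a (i0.succAbove i)).bind (finSuccEquiv' j0))
          (fun i => (b (i0.succAbove i)).bind (finSuccEquiv' j0))
        have key : ∀ (c : Option (Fin (n + 1))) (j : Fin n),
            vec c (j0.succAbove j) = vec (c.bind (finSuccEquiv' j0)) j := by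
          intro c j
          rw [vec_apply, vec_apply]
          cases c with
          | none => simp
          | some t =>
            simp only [Option.some.injEq, Option.bind_some]
            by_cases h : t = j0.succAbove j
            · subst h; simp
            · have h2 : ¬ (finSuccEquiv' j0 t = some j) := by
                intro hh
                apply h
                have := congrArg (finSuccEquiv' j0).symm hh
                simpa using this
              simp [h, h2]
        have e : A.submatrix i0.succAbove j0.succAbove = Matrix.of fun i =>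
            vec ((a (i0.succAbove i)).bind (finSuccEquiv' j0)) -
              vec ((b (i0.succAbove i)).bind (finSuccEquiv' j0)) := by
          ext i j
          simp [hA, key]
        rw [e]
        exact this
      · intro j _ hj
        have : A i0 j = 0 := by rw [hrow]; simp [hj]
        rw [this]; ring
      · intro h; exact absurd (Finset.mem_univ _) h

theorem vec_equiv {J J' : Type} [DecidableEq J] [DecidableEq J'] (e : J ≃ J') (c : Option J)
    (j : J') : vec c (e.symm j) = vec (c.map e) j := by
  rw [vec_apply, vec_apply]
  cases c with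
  | none => simp
  | some t =>
    by_cases h : t = e.symm j
    · subst h; simp
    · have h2 : ¬ (e t = j) := fun hh => h (by rw [← hh]; simp)
      simp [h, h2]

variable {J : Type} [Fintype J] [DecidableEq J]

theorem det_network (A : Matrix J J ℤ) (hA : ∀ i, ∃ a b, A i = vec a - vec b) : |A.det| ≤ 1 := by
  choose a b hab using hA
  let e := Fintype.equivFin J
  have h := det_network_fin (Fintype.card J) (fun i => (a (e.symm i)).map e)
    (fun i => (b (e.symm i)).map e)
  rw [← Matrix.det_reindex_self e A]
  have e2 : Matrix.reindex e e A = Matrix.of fun i => vec ((a (e.symm i)).map e) -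
      vec ((b (e.symm i)).map e) := by
    ext i j
    simp only [Matrix.reindex_apply, Matrix.submatrix_apply, Matrix.of_apply, Pi.sub_apply, hab,
      vec_equiv e]
  rw [e2]
  exact h

/-- rows in `K` are product rows, the other rows are chords -/
theorem det_mixed (K : Finset J) (A : Matrix J J ℤ)
    (hK : ∀ i ∈ K, ∃ a b c, A i = vec a + vec b - vec c)
    (hN : ∀ i ∉ K, ∃ a b, A i = vec a - vec b) : |A.det| ≤ 2 ^ K.card := by
  induction K using Finset.induction_on generalizing A with
  | empty => simpa using det_network A fun i => hN i (Finset.notMem_empty i)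
  | insert i0 K hi0 ih =>
    obtain ⟨a, b, c, h0⟩ := hK i0 (Finset.mem_insert_self _ _)
    have hA : A = A.updateRow i0 ((vec a - vec c) + (vec b - vec none)) := by
      rw [← Matrix.updateRow_eq_self A i0, Matrix.updateRow_idem]
      congr 1
      rw [h0]
      funext j
      simp only [Pi.add_apply, Pi.sub_apply, vec_none, Pi.zero_apply]
      ring
    have key : ∀ p q : Option J, |(A.updateRow i0 (vec p - vec q)).det| ≤ 2 ^ K.card := by
      intro p q
      apply ih
      · intro i hi
        have hne : i ≠ i0 := fun h => hi0 (h ▸ hi)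
        rw [Matrix.updateRow_ne hne]
        exact hK i (Finset.mem_insert_of_mem hi)
      · intro i hi
        by_cases hne : i = i0
        · subst hne
          exact ⟨p, q, Matrix.updateRow_self⟩
        · rw [Matrix.updateRow_ne hne]
          exact hN i (by simp [hne, hi])
    rw [hA, Matrix.det_updateRow_add]
    calc |(A.updateRow i0 (vec a - vec c)).det + (A.updateRow i0 (vec b - vec none)).det|
        ≤ |(A.updateRow i0 (vec a - vec c)).det| + |(A.updateRow i0 (vec b - vec none)).det| :=
          abs_add_le _ _
      _ ≤ 2 ^ K.card + 2 ^ K.card := add_le_add (key _ _) (key _ _)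
      _ = 2 ^ (insert i0 K).card := by
          rw [Finset.card_insert_of_notMem hi0, pow_succ]; ring

/-- A linear functional which vanishes on the product rows and is small on the chord rows is small
on every variable. -/
theorem cramer_bound (K : Finset J) (A : Matrix J J ℤ)
    (hK : ∀ i ∈ K, ∃ a b c, A i = vec a + vec b - vec c)
    (hN : ∀ i ∉ K, ∃ a b, A i = vec a - vec b) (hdet : A.det ≠ 0) (L : J → ℝ) (B : ℝ)
    (hLK : ∀ i ∈ K, ∑ j, (A i j : ℝ) * L j = 0) (hLN : ∀ i ∉ K, |∑ j, (A i j : ℝ) * L j| ≤ B)
    (l : J) : |L l| ≤ (Fintype.card J - K.card : ℕ) * 2 ^ K.card * B := by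
  -- `det A * L l = ∑ i, adj l i * ρ i`
  set ρ : J → ℝ := fun i => ∑ j, (A i j : ℝ) * L j with hρ
  have h1 : (A.det : ℝ) * L l = ∑ i, (A.adjugate l i : ℝ) * ρ i := by
    have h2 : A.adjugate * A = A.det • (1 : Matrix J J ℤ) := Matrix.adjugate_mul A
    have h3 : ∀ j, ∑ i, A.adjugate l i * A i j = A.det * (if l = j then 1 else 0) := by
      intro j
      have := congrFun (congrFun h2 l) j
      rw [Matrix.mul_apply] at this
      rw [this]
      simp [Matrix.one_apply]
    calc (A.det : ℝ) * L l = ∑ j, ((A.det * (if l = j then 1 else 0) : ℤ) : ℝ) * L j := by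
          rw [Finset.sum_eq_single l]
          · simp
          · intro j _ hj; simp [Ne.symm hj]
          · intro h; exact absurd (Finset.mem_univ _) h
      _ = ∑ j, ∑ i, (A.adjugate l i : ℝ) * ((A i j : ℝ) * L j) := by
          refine Finset.sum_congr rfl fun j _ => ?_
          rw [← h3 j]
          push_cast
          rw [Finset.sum_mul]
          exact Finset.sum_congr rfl fun i _ => by ring
      _ = ∑ i, (A.adjugate l i : ℝ) * ρ i := by
          rw [Finset.sum_comm]
          refine Finset.sum_congr rfl fun i _ => ?_
          rw [hρ, Finset.mul_sum]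
  have hadj : ∀ i ∉ K, |(A.adjugate l i : ℝ)| ≤ 2 ^ K.card := by
    intro i hi
    rw [Matrix.adjugate_apply]
    have := det_mixed K (A.updateRow i (Pi.single l 1)) (by
      intro i' hi'
      have hne : i' ≠ i := fun h => hi (h ▸ hi')
      rw [Matrix.updateRow_ne hne]
      exact hK i' hi') (by
      intro i' hi'
      by_cases hne : i' = i
      · subst hne
        exact ⟨some l, none, by rw [Matrix.updateRow_self]; simp⟩
      · rw [Matrix.updateRow_ne hne]
        exact hN i' hi')
    exact_mod_cast this
  have hB : ∀ i ∉ K, |(A.adjugate l i : ℝ) * ρ i| ≤ 2 ^ K.card * B := by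
    intro i hi
    rw [abs_mul]
    exact mul_le_mul (hadj i hi) (hLN i hi) (abs_nonneg _) (by positivity)
  have h4 : |(A.det : ℝ) * L l| ≤ (Fintype.card J - K.card : ℕ) * (2 ^ K.card * B) := by
    rw [h1]
    calc |∑ i, (A.adjugate l i : ℝ) * ρ i| ≤ ∑ i, |(A.adjugate l i : ℝ) * ρ i| :=
          Finset.abs_sum_le_sum_abs _ _
      _ = ∑ i ∈ Kᶜ, |(A.adjugate l i : ℝ) * ρ i| := by
          rw [← Finset.sum_add_sum_compl K (fun i => |(A.adjugate l i : ℝ) * ρ i|)]
          have : ∑ i ∈ K, |(A.adjugate l i : ℝ) * ρ i| = 0 :=
            Finset.sum_eq_zero fun i hi => by rw [hρ]; simp only; rw [hLK i hi]; simp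
          rw [this, zero_add]
      _ ≤ ∑ _i ∈ Kᶜ, 2 ^ K.card * B :=
          Finset.sum_le_sum fun i hi => hB i (Finset.mem_compl.1 hi)
      _ = (Fintype.card J - K.card : ℕ) * (2 ^ K.card * B) := by
          rw [Finset.sum_const, Finset.card_compl, nsmul_eq_mul]
  have h5 : (1 : ℝ) ≤ |(A.det : ℝ)| := by
    have : (1 : ℤ) ≤ |A.det| := Int.one_le_abs hdet
    exact_mod_cast this
  calc |L l| ≤ |(A.det : ℝ)| * |L l| := le_mul_of_one_le_left (abs_nonneg _) h5
    _ = |(A.det : ℝ) * L l| := (abs_mul _ _).symm
    _ ≤ _ := h4
    _ = _ := by ring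

end Pool.Agent.W_MP_78a2de_al_h8
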