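import Mathlib

/-!
# Heights of generating families of lattices, and the step inequality (helper8)
-/

set_option autoImplicit false

namespace Pool.Agent.W_MP_78a2de_al_h8

open Module Finset

/-- `l1`-ball for the family `v` on `s`. -/
def Ball {ι Q : Type} [AddCommGroup Q] (s : Finset ι) (v : ι → Q) (A : ℕ) : Set Q :=
  {x | ∃ c : ι → ℤ, (∑ j ∈ s, |c j|) ≤ (A : ℤ) ∧ x = ∑ j ∈ s, c j • v j}

theorem abs_multilinear_le {κ ι Q : Type} [Fintype κ] [DecidableEq κ] [AddCommGroup Q]
    (D : MultilinearMap ℤ (fun _ : κ => Q) ℤ) (s : Finset ι) (v : ι → Q) (H : ℕ)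
    (hH : ∀ g : κ → ι, (∀ i, g i ∈ s) → |D (fun i => v (g i))| ≤ (H : ℤ)) (A : κ → ℕ)
    (x : κ → Q) (hx : ∀ i, x i ∈ Ball s v (A i)) :
    |D x| ≤ (∏ i, (A i : ℤ)) * H := by
  classical
  choose c hc hxc using hx
  have h1 : D x = ∑ g ∈ Fintype.piFinset (fun _ : κ => s), (∏ i, c i (g i)) * D (fun i => v (g i)) := by
    have : x = fun i => ∑ j ∈ s, c i j • v j := funext hxc
    rw [this, MultilinearMap.map_sum_finset]
    refine Finset.sum_congr rfl fun g _ => ?_
    rw [MultilinearMap.map_smul_univ, smul_eq_mul]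
  rw [h1]
  calc |∑ g ∈ Fintype.piFinset (fun _ : κ => s), (∏ i, c i (g i)) * D (fun i => v (g i))|
      ≤ ∑ g ∈ Fintype.piFinset (fun _ : κ => s), |(∏ i, c i (g i)) * D (fun i => v (g i))| :=
        Finset.abs_sum_le_sum_abs _ _
    _ ≤ ∑ g ∈ Fintype.piFinset (fun _ : κ => s), (∏ i, |c i (g i)|) * H := by
        refine Finset.sum_le_sum fun g hg => ?_
        rw [abs_mul, Finset.abs_prod]
        refine mul_le_mul_of_nonneg_left (hH g ?_) (Finset.prod_nonneg fun i _ => abs_nonneg _)
        intro i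
        exact Fintype.mem_piFinset.1 hg i
    _ = (∏ i, ∑ j ∈ s, |c i j|) * H := by
        rw [← Finset.sum_mul, Finset.prod_univ_sum]
    _ ≤ (∏ i, (A i : ℤ)) * H := by
        refine mul_le_mul_of_nonneg_right ?_ (by positivity)
        exact Finset.prod_le_prod (fun i _ => Finset.sum_nonneg fun j _ => abs_nonneg _)
          (fun i _ => hc i)

/-- Height of a family `v` on `s` in a lattice `Q`. -/
noncomputable def ht {ι Q : Type} [AddCommGroup Q] [Module.Free ℤ Q] [Module.Finite ℤ Q]
    (s : Finset ι) (v : ι → Q) : ℕ :=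
  (Fintype.piFinset fun _ : Fin (finrank ℤ Q) => s).sup
    fun g => ((finBasis ℤ Q).det (fun i => v (g i))).natAbs

section

variable {ι Q : Type} [AddCommGroup Q] [Module.Free ℤ Q] [Module.Finite ℤ Q]

theorem natAbs_det_le_ht (s : Finset ι) (v : ι → Q) (g : Fin (finrank ℤ Q) → ι)
    (hg : ∀ i, g i ∈ s) : ((finBasis ℤ Q).det (fun i => v (g i))).natAbs ≤ ht s v := by
  have : g ∈ Fintype.piFinset fun _ : Fin (finrank ℤ Q) => s := Fintype.mem_piFinset.2 hg
  exact Finset.le_sup (f := fun g => ((finBasis ℤ Q).det (fun i => v (g i))).natAbs) this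

theorem ht_eq (s : Finset ι) (v : ι → Q) : ht s v = 0 ∨ ∃ g : Fin (finrank ℤ Q) → ι,
    (∀ i, g i ∈ s) ∧ ((finBasis ℤ Q).det (fun i => v (g i))).natAbs = ht s v := by
  rcases (Fintype.piFinset fun _ : Fin (finrank ℤ Q) => s).eq_empty_or_nonempty with h | h
  · left; rw [ht, h]; rfl
  · right
    obtain ⟨g, hg, hg'⟩ := Finset.exists_mem_eq_sup _ h
      (fun g => ((finBasis ℤ Q).det (fun i => v (g i))).natAbs)
    exact ⟨g, fun i => Fintype.mem_piFinset.1 hg i, hg'.symm⟩

theorem det_ne_zero_of_linearIndependent {r : ℕ} (b : Basis (Fin r) ℤ Q) (x : Fin r → Q)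
    (hx : LinearIndependent ℤ x) : b.det x ≠ 0 := by
  classical
  intro h
  rw [Basis.det_apply] at h
  obtain ⟨w, hw, hw'⟩ := Matrix.exists_mulVec_eq_zero_iff.2 h
  apply hw
  have h1 : ∑ i, w i • x i = 0 := by
    apply b.repr.injective
    ext i
    have := congrFun hw' i
    simp only [Matrix.mulVec, dotProduct, Basis.toMatrix_apply, Pi.zero_apply] at this
    simp only [map_sum, map_zsmul, Finsupp.coe_finsetSum, Finset.sum_apply, Finsupp.coe_smul, Pi.smul_apply,
      smul_eq_mul, map_zero, Finsupp.coe_zero, Pi.zero_apply]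
    rw [← this]
    exact Finset.sum_congr rfl fun j _ => mul_comm _ _
  have := Fintype.linearIndependent_iff.1 hx w h1
  exact funext this

end

section Completion

variable {M : Type} [AddCommGroup M] [Module.Free ℤ M] [Module.Finite ℤ M]

theorem finrank_le_of_torsion {κ : Type} [Fintype κ] (F : κ → M)
    (h : ∀ x : M, ∃ n : ℤ, n ≠ 0 ∧ n • x ∈ Submodule.span ℤ (Set.range F)) :
    finrank ℤ M ≤ Fintype.card κ := by
  have h1 := (Submodule.span ℤ (Set.range F)).finrank_quotient_add_finrank
  have h2 : finrank ℤ (M ⧸ Submodule.span ℤ (Set.range F)) = 0 := by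
    have : Module.rank ℤ (M ⧸ Submodule.span ℤ (Set.range F)) = 0 := by
      rw [rank_eq_zero_iff]
      intro x
      obtain ⟨x, rfl⟩ := Submodule.mkQ_surjective _ x
      obtain ⟨n, hn, hn'⟩ := h x
      refine ⟨n, hn, ?_⟩
      rw [← map_smul]
      exact (Submodule.Quotient.mk_eq_zero _).2 hn'
    rw [finrank, this, map_zero]
  have h3 : finrank ℤ (Submodule.span ℤ (Set.range F)) ≤ Fintype.card κ :=
    finrank_range_le_card F
  omega

theorem exists_completion (Z : Set M) : ∀ (e : ℕ) {κ : Type} [Fintype κ] (F : κ → M)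
    (_ : LinearIndependent ℤ F)
    (_ : ∀ x : M, ∃ n : ℤ, n ≠ 0 ∧ n • x ∈ Submodule.span ℤ (Set.range F ∪ Z))
    (_ : Fintype.card κ + e = finrank ℤ M),
    ∃ z : Fin e → M, (∀ i, z i ∈ Z) ∧ LinearIndependent ℤ (Sum.elim F z) := by
  intro e
  induction e with
  | zero =>
    intro κ _ F hF _ _
    refine ⟨Fin.elim0, fun i => i.elim0, ?_⟩
    have : LinearIndependent ℤ (Sum.elim F (Fin.elim0 : Fin 0 → M) ∘ (Equiv.sumEmpty κ (Fin 0)).symm) := by
      convert hF using 1
      funext i
      rfl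
    exact (linearIndependent_equiv (Equiv.sumEmpty κ (Fin 0)).symm).1 this
  | succ e ih =>
    intro κ _ F hF hZ hcard
    obtain ⟨z0, hz0, hz0'⟩ : ∃ z0 ∈ Z, ∀ n : ℤ, n • z0 ∈ Submodule.span ℤ (Set.range F) → n = 0 := by
      by_contra hcon
      push Not at hcon
      have : finrank ℤ M ≤ Fintype.card κ := by
        refine finrank_le_of_torsion F fun x => ?_
        obtain ⟨n, hn, hn'⟩ := hZ x
        have key : ∀ y ∈ Submodule.span ℤ (Set.range F ∪ Z), ∃ n : ℤ, n ≠ 0 ∧
            n • y ∈ Submodule.span ℤ (Set.range F) := by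
          intro y hy
          induction hy using Submodule.span_induction with
          | mem y hy =>
            rcases hy with hy | hy
            · exact ⟨1, one_ne_zero, by rw [one_smul]; exact Submodule.subset_span hy⟩
            · obtain ⟨n, h1, h2⟩ := hcon y hy
              exact ⟨n, h2, h1⟩
          | zero => exact ⟨1, one_ne_zero, by simp⟩
          | add y y' _ _ h h' =>
            obtain ⟨n, h1, h2⟩ := h
            obtain ⟨n', h1', h2'⟩ := h'
            refine ⟨n * n', mul_ne_zero h1 h1', ?_⟩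
            rw [smul_add]
            refine Submodule.add_mem _ ?_ ?_
            · rw [mul_comm, mul_smul]; exact Submodule.smul_mem _ _ h2
            · rw [mul_smul]; exact Submodule.smul_mem _ _ h2'
          | smul a y _ h =>
            obtain ⟨n, h1, h2⟩ := h
            refine ⟨n, h1, ?_⟩
            rw [smul_comm]
            exact Submodule.smul_mem _ _ h2
        obtain ⟨n', h1', h2'⟩ := key _ hn'
        exact ⟨n' * n, mul_ne_zero h1' hn, by rw [mul_smul]; exact h2'⟩
      omega
    have hind : LinearIndependent ℤ (Sum.elim F (fun _ : Unit => z0)) := by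
      refine LinearIndependent.sum_type hF ?_ ?_
      · rw [Fintype.linearIndependent_iff]
        intro g hg i
        simp only [Finset.univ_unique, Finset.sum_singleton] at hg
        have : g default = 0 := hz0' _ (by rw [hg]; exact Submodule.zero_mem _)
        simpa using this
      · rw [Submodule.disjoint_def]
        intro x hx hx'
        rw [Set.range_const, Submodule.mem_span_singleton] at hx'
        obtain ⟨n, rfl⟩ := hx'
        rw [hz0' n hx, zero_smul]
    obtain ⟨z, hz, hz'⟩ := ih (Sum.elim F (fun _ : Unit => z0)) hind (by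
      intro x
      obtain ⟨n, h1, h2⟩ := hZ x
      refine ⟨n, h1, Submodule.span_mono ?_ h2⟩
      refine Set.union_subset_union_left _ ?_
      rintro _ ⟨i, rfl⟩
      exact ⟨Sum.inl i, rfl⟩) (by simp only [Fintype.card_sum, Fintype.card_unit]; omega)
    refine ⟨Fin.cons z0 z, ?_, ?_⟩
    · intro i
      refine Fin.cases ?_ ?_ i
      · exact hz0
      · intro j; exact hz j
    · let σ : (κ ⊕ Unit) ⊕ Fin e ≃ κ ⊕ Fin (e + 1) :=
        (Equiv.sumAssoc κ Unit (Fin e)).trans ((Equiv.refl κ).sumCongr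
          ((Equiv.sumComm Unit (Fin e)).trans ((Equiv.optionEquivSumPUnit (Fin e)).symm.trans
            (finSuccEquiv e).symm)))
      rw [← linearIndependent_equiv σ]
      convert hz' using 1
      funext i
      rcases i with (i | i) | i
      · rfl
      · simp [σ]
      · simp [σ]

end Completion

section Step

/-- Replace arguments modulo a submodule on which the form vanishes slotwise. -/
theorem multilinear_congr_mod {κ Q : Type} [Fintype κ] [DecidableEq κ] [AddCommGroup Q]
    (D : MultilinearMap ℤ (fun _ : κ => Q) ℤ) (K : Submodule ℤ Q)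
    (hK : ∀ (y : κ → Q) (i : κ), y i ∈ K → D y = 0) (y y' : κ → Q) (h : ∀ i, y i - y' i ∈ K) :
    D y = D y' := by
  have key : ∀ T : Finset κ, D (T.piecewise y' y) = D y := by
    intro T
    induction T using Finset.induction_on with
    | empty => simp
    | insert a T ha ih =>
      rw [Finset.piecewise_insert, ← ih]
      have h1 : T.piecewise y' y = Function.update (T.piecewise y' y) a (y a) := by
        funext i
        by_cases hi : i = a
        · subst hi; simp [Finset.piecewise_eq_of_notMem _ _ _ ha]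
        · simp [Function.update_of_ne hi]
      have h2 : D (Function.update (T.piecewise y' y) a (y a)) - D (Function.update (T.piecewise y' y) a (y' a))
          = 0 := by
        rw [← MultilinearMap.map_update_sub]
        apply hK _ a
        rw [Function.update_self]
        exact h a
      conv_rhs => rw [h1]
      exact (sub_eq_zero.1 h2).symm
  have := key Finset.univ
  rw [Finset.piecewise_univ] at this
  exact this.symm

/-- Restrict an alternating form on a sum type to the left block through a linear map. -/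
noncomputable def leftForm {κ κ' Q Q1 : Type} [AddCommGroup Q] [AddCommGroup Q1]
    (D : Q [⋀^(κ ⊕ κ')]→ₗ[ℤ] ℤ) (μ : Q1 →ₗ[ℤ] Q) (z : κ' → Q) : Q1 [⋀^κ]→ₗ[ℤ] ℤ where
  toFun t := D (Sum.elim (fun i => μ (t i)) z)
  map_update_add' := by
    intro inst t i x y
    classical
    have e : ∀ w : Q1, Sum.elim (fun j => μ (Function.update t i w j)) z
        = Function.update (Sum.elim (fun j => μ (t j)) z) (Sum.inl i) (μ w) := by
      intro w
      funext j
      rcases j with j | j
      · by_cases hj : j = i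
        · subst hj; simp
        · have hj' : (Sum.inl j : κ ⊕ κ') ≠ Sum.inl i := by simpa using hj
          simp [Function.update_of_ne hj, Function.update_of_ne hj']
      · simp
    simp only [e, map_add]
    exact D.map_update_add _ _ _ _
  map_update_smul' := by
    intro inst t i x y
    classical
    have e : ∀ w : Q1, Sum.elim (fun j => μ (Function.update t i w j)) z
        = Function.update (Sum.elim (fun j => μ (t j)) z) (Sum.inl i) (μ w) := by
      intro w
      funext j
      rcases j with j | j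
      · by_cases hj : j = i
        · subst hj; simp
        · have hj' : (Sum.inl j : κ ⊕ κ') ≠ Sum.inl i := by simpa using hj
          simp [Function.update_of_ne hj, Function.update_of_ne hj']
      · simp
    simp only [e, map_smul]
    exact D.map_update_smul _ _ _ _
  map_eq_zero_of_eq' := by
    intro t i j h hij
    exact D.map_eq_zero_of_eq _ (i := Sum.inl i) (j := Sum.inl j) (by simp [h]) (by simpa using hij)

theorem leftForm_apply {κ κ' Q Q1 : Type} [AddCommGroup Q] [AddCommGroup Q1]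
    (D : Q [⋀^(κ ⊕ κ')]→ₗ[ℤ] ℤ) (μ : Q1 →ₗ[ℤ] Q) (z : κ' → Q) (t : κ → Q1) :
    leftForm D μ z t = D (Sum.elim (fun i => μ (t i)) z) := rfl

/-- Factorization of a top form along `0 → K → Q → Q' → 0` with `Q1 ⊂ K`. -/
theorem det_lower {Q Q1 Q' : Type} [AddCommGroup Q] [AddCommGroup Q1] [AddCommGroup Q']
    [Module.Free ℤ Q] [Module.Finite ℤ Q] [Module.Free ℤ Q1] [Module.Finite ℤ Q1]
    [Module.Free ℤ Q'] [Module.Finite ℤ Q'] (μ : Q1 →ₗ[ℤ] Q) (hμ : Function.Injective μ)
    (π : Q →ₗ[ℤ] Q') (hπ : Function.Surjective π) (hπμ : ∀ x, π (μ x) = 0) (Z : Set Q)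
    (hZ0 : ∀ z ∈ Z, π z = 0)
    (hZ : ∀ x : Q, π x = 0 → ∃ n : ℤ, n ≠ 0 ∧ n • x ∈ Submodule.span ℤ (Set.range μ ∪ Z)) :
    ∃ (e : ℕ) (z : Fin e → Q) (σ : Fin (finrank ℤ Q) ≃ (Fin (finrank ℤ Q1) ⊕ Fin e) ⊕ Fin (finrank ℤ Q')),
      (∀ i, z i ∈ Z) ∧ ∀ (t : Fin (finrank ℤ Q1) → Q1) (y : Fin (finrank ℤ Q') → Q),
      |(finBasis ℤ Q1).det t| * |(finBasis ℤ Q').det (fun i => π (y i))| ≤
        |(finBasis ℤ Q).det (fun i => Sum.elim (Sum.elim (fun i => μ (t i)) z) y (σ i))| := by
  classical
  obtain ⟨s, hs⟩ := Module.projective_lifting_property π (LinearMap.id : Q' →ₗ[ℤ] Q') hπ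
  have hs' : ∀ x, π (s x) = x := fun x => LinearMap.congr_fun hs x
  have hrank : finrank ℤ Q' + finrank ℤ (LinearMap.ker π) = finrank ℤ Q := by
    have h1 := (LinearMap.ker π).finrank_quotient_add_finrank
    rwa [(π.quotKerEquivOfSurjective hπ).finrank_eq] at h1
  -- the family in the kernel
  let K := LinearMap.ker π
  let F : Fin (finrank ℤ Q1) → K := fun i => ⟨μ (finBasis ℤ Q1 i), hπμ _⟩
  have hμb : LinearIndependent ℤ (fun i => μ (finBasis ℤ Q1 i)) :=
    (finBasis ℤ Q1).linearIndependent.map' μ (LinearMap.ker_eq_bot.2 hμ)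
  have hF : LinearIndependent ℤ F := by
    apply LinearIndependent.of_comp K.subtype
    exact hμb
  have hcard : finrank ℤ Q1 ≤ finrank ℤ K := by
    simpa using hF.fintype_card_le_finrank
  obtain ⟨e, he⟩ := Nat.exists_eq_add_of_le hcard
  obtain ⟨z, hz, hzind⟩ := exists_completion {x : K | (x : Q) ∈ Z} e F hF (by
    intro x
    obtain ⟨n, hn, hn'⟩ := hZ x.1 x.2
    refine ⟨n, hn, ?_⟩
    have hle : Submodule.span ℤ (Set.range μ ∪ Z) ≤
        (Submodule.span ℤ (Set.range F ∪ {x : K | (x : Q) ∈ Z})).map K.subtype := by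
      rw [Submodule.span_le]
      rintro y (⟨w, rfl⟩ | hy)
      · refine ⟨⟨μ w, hπμ _⟩, ?_, rfl⟩
        have hw := (finBasis ℤ Q1).sum_repr w
        have : (⟨μ w, hπμ _⟩ : K) = ∑ i, (finBasis ℤ Q1).repr w i • F i := by
          apply Subtype.ext
          rw [Submodule.coe_sum]
          simp only [F, Submodule.coe_smul]
          exact (congrArg μ hw).symm.trans (by simp only [map_sum, map_smul])
        rw [this]
        refine Submodule.sum_mem _ fun i _ => Submodule.smul_mem _ _ (Submodule.subset_span ?_)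
        exact Or.inl ⟨i, rfl⟩
      · exact ⟨⟨y, hZ0 y hy⟩, Submodule.subset_span (Or.inr hy), rfl⟩
    obtain ⟨y, hy, hy'⟩ := hle hn'
    have : y = n • x := Subtype.ext hy'
    rwa [← this]) (by simp; omega)
  have hFz : LinearIndependent ℤ (Sum.elim (fun i => μ (finBasis ℤ Q1 i)) (fun i => (z i : Q))) := by
    have h1 := hzind.map' K.subtype (Submodule.ker_subtype _)
    have h2 : Sum.elim (fun i => μ (finBasis ℤ Q1 i)) (fun i => (z i : Q)) = K.subtype ∘ Sum.elim F z := by
      funext i
      rcases i with i | i <;> rfl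
    rw [h2]
    exact h1
  have hcard2 : finrank ℤ Q = (finrank ℤ Q1 + e) + finrank ℤ Q' := by
    have : finrank ℤ K = finrank ℤ (LinearMap.ker π) := rfl
    omega
  let σ : Fin (finrank ℤ Q) ≃ (Fin (finrank ℤ Q1) ⊕ Fin e) ⊕ Fin (finrank ℤ Q') :=
    (finCongr hcard2).trans (finSumFinEquiv.symm.trans (finSumFinEquiv.symm.sumCongr (Equiv.refl _)))
  refine ⟨e, fun i => (z i : Q), σ, fun i => hz i, ?_⟩
  intro t y
  let D : Q [⋀^((Fin (finrank ℤ Q1) ⊕ Fin e) ⊕ Fin (finrank ℤ Q'))]→ₗ[ℤ] ℤ :=
    (finBasis ℤ Q).det.domDomCongr σ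
  have hD : ∀ x, D x = (finBasis ℤ Q).det (fun i => x (σ i)) := fun x => rfl
  let D' : Q [⋀^(Fin (finrank ℤ Q') ⊕ (Fin (finrank ℤ Q1) ⊕ Fin e))]→ₗ[ℤ] ℤ :=
    D.domDomCongr (Equiv.sumComm _ _)
  have hD' : ∀ x y, D' (Sum.elim x y) = D (Sum.elim y x) := by
    intro x y
    simp only [D', AlternatingMap.domDomCongr_apply]
    congr 1
    funext i
    rcases i with i | i <;> rfl
  let D'' : Q [⋀^(Fin (finrank ℤ Q1) ⊕ (Fin e ⊕ Fin (finrank ℤ Q')))]→ₗ[ℤ] ℤ :=
    D.domDomCongr (Equiv.sumAssoc _ _ _)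
  have hD'' : ∀ x y z, D'' (Sum.elim x (Sum.elim y z)) = D (Sum.elim (Sum.elim x y) z) := by
    intro x y z
    simp only [D'', AlternatingMap.domDomCongr_apply]
    congr 1
    funext i
    rcases i with (i | i) | i <;> rfl
  -- step 1
  have step1 : D (Sum.elim (Sum.elim (fun i => μ (t i)) fun i => (z i : Q)) y)
      = D (Sum.elim (Sum.elim (fun i => μ (t i)) fun i => (z i : Q)) (fun i => s (π (y i)))) := by
    have h := multilinear_congr_mod
      (leftForm D' LinearMap.id (Sum.elim (fun i => μ (t i)) fun i => (z i : Q))).toMultilinearMap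
      K ?_ y (fun i => s (π (y i))) ?_
    · have e1 := leftForm_apply D' LinearMap.id (Sum.elim (fun i => μ (t i)) fun i => (z i : Q)) y
      have e2 := leftForm_apply D' LinearMap.id (Sum.elim (fun i => μ (t i)) fun i => (z i : Q))
        (fun i => s (π (y i)))
      rw [hD'] at e1 e2
      simp only [LinearMap.id_apply] at e1 e2
      rw [← e1, ← e2]
      exact h
    · intro y i hi
      have e1 := leftForm_apply D' LinearMap.id (Sum.elim (fun i => μ (t i)) fun i => (z i : Q)) y
      rw [hD'] at e1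
      simp only [LinearMap.id_apply] at e1
      refine e1.trans ?_
      apply AlternatingMap.map_linearDependent
      intro hind
      let G : (Fin (finrank ℤ Q1) ⊕ Fin e) ⊕ Unit → K :=
        Sum.elim (Sum.elim (fun i => ⟨μ (t i), hπμ _⟩) z) (fun _ => ⟨y i, hi⟩)
      have hG : LinearIndependent ℤ G := by
        apply LinearIndependent.of_comp K.subtype
        let τ : (Fin (finrank ℤ Q1) ⊕ Fin e) ⊕ Unit → (Fin (finrank ℤ Q1) ⊕ Fin e) ⊕ Fin (finrank ℤ Q') :=
          Sum.map id (fun _ => i)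
        have hτ : Function.Injective τ := Sum.map_injective.2 ⟨Function.injective_id, fun _ _ _ => rfl⟩
        have h1 := hind.comp τ hτ
        have h2 : K.subtype ∘ G
            = (Sum.elim (Sum.elim (fun i => μ (t i)) fun i => (z i : Q)) fun i => y i) ∘ τ := by
          funext j
          rcases j with (j | j) | j <;> rfl
        rw [h2]
        exact h1
      have := hG.fintype_card_le_finrank
      simp only [Fintype.card_sum, Fintype.card_fin, Fintype.card_unit] at this
      omega
    · intro i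
      show π _ = 0
      rw [map_sub, hs', sub_self]
  have step2 : D (Sum.elim (Sum.elim (fun i => μ (t i)) fun i => (z i : Q)) (fun i => s (π (y i))))
      = D (Sum.elim (Sum.elim (fun i => μ (t i)) fun i => (z i : Q)) (fun i => s (finBasis ℤ Q' i)))
        * (finBasis ℤ Q').det (fun i => π (y i)) := by
    have h := AlternatingMap.eq_smul_basis_det (finBasis ℤ Q')
      (leftForm D' s (Sum.elim (fun i => μ (t i)) fun i => (z i : Q)))
    have h1 := congrArg (fun f => f (fun i => π (y i))) h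
    simp only [leftForm_apply, hD', AlternatingMap.smul_apply, smul_eq_mul] at h1
    exact h1
  have step3 : D (Sum.elim (Sum.elim (fun i => μ (t i)) fun i => (z i : Q)) (fun i => s (finBasis ℤ Q' i)))
      = D (Sum.elim (Sum.elim (fun i => μ (finBasis ℤ Q1 i)) fun i => (z i : Q))
          (fun i => s (finBasis ℤ Q' i))) * (finBasis ℤ Q1).det t := by
    have h := AlternatingMap.eq_smul_basis_det (finBasis ℤ Q1)
      (leftForm D'' μ (Sum.elim (fun i => (z i : Q)) (fun i => s (finBasis ℤ Q' i))))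
    have h1 := congrArg (fun f => f t) h
    simp only [leftForm_apply, hD'', AlternatingMap.smul_apply, smul_eq_mul] at h1
    exact h1
  have step4 : D (Sum.elim (Sum.elim (fun i => μ (finBasis ℤ Q1 i)) fun i => (z i : Q))
          (fun i => s (finBasis ℤ Q' i))) ≠ 0 := by
    rw [hD]
    apply det_ne_zero_of_linearIndependent
    have h1 : LinearIndependent ℤ (Sum.elim (Sum.elim (fun i => μ (finBasis ℤ Q1 i)) fun i => (z i : Q))
          (fun i => s (finBasis ℤ Q' i))) := by
      refine LinearIndependent.sum_type hFz ?_ ?_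
      · apply LinearIndependent.of_comp π
        convert (finBasis ℤ Q').linearIndependent using 1
        funext i
        exact hs' _
      · rw [Submodule.disjoint_def]
        intro x hx hx'
        have hxK : x ∈ K := by
          refine (Submodule.span_le.2 ?_) hx
          rintro _ ⟨i, rfl⟩
          rcases i with i | i
          · exact hπμ _
          · exact (z i).2
        have hxs : x ∈ LinearMap.range s := by
          refine (Submodule.span_le.2 ?_) hx'
          rintro _ ⟨i, rfl⟩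
          exact ⟨_, rfl⟩
        obtain ⟨w, rfl⟩ := hxs
        have : π (s w) = 0 := hxK
        rw [hs'] at this
        rw [this, map_zero]
    exact h1.comp σ σ.injective
  rw [← hD, step1, step2, step3, abs_mul, abs_mul]
  have h5 : 1 ≤ |D (Sum.elim (Sum.elim (fun i => μ (finBasis ℤ Q1 i)) fun i => (z i : Q))
          (fun i => s (finBasis ℤ Q' i)))| := Int.one_le_abs step4
  calc |(finBasis ℤ Q1).det t| * |(finBasis ℤ Q').det (fun i => π (y i))|
      = 1 * |(finBasis ℤ Q1).det t| * |(finBasis ℤ Q').det (fun i => π (y i))| := by ring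
    _ ≤ _ := by gcongr

theorem mem_ball_one {ι Q : Type} [AddCommGroup Q] (s : Finset ι) (v : ι → Q) {i : ι} (hi : i ∈ s) :
    v i ∈ Ball s v 1 := by
  classical
  refine ⟨Pi.single i 1, ?_, ?_⟩
  · rw [Finset.sum_eq_single i]
    · simp
    · intro j _ hj; simp [Pi.single_eq_of_ne hj]
    · intro h; exact absurd hi h
  · rw [Finset.sum_eq_single i]
    · simp
    · intro j _ hj; simp [Pi.single_eq_of_ne hj]
    · intro h; exact absurd hi h

theorem ball_mono {ι Q : Type} [AddCommGroup Q] (s : Finset ι) (v : ι → Q) {A B : ℕ} (h : A ≤ B) :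
    Ball s v A ⊆ Ball s v B := by
  rintro x ⟨c, h1, h2⟩
  exact ⟨c, h1.trans (by exact_mod_cast h), h2⟩

/-- The height step inequality. -/
theorem ht_step {ι ι1 Q Q1 Q' : Type} [AddCommGroup Q] [AddCommGroup Q1] [AddCommGroup Q']
    [Module.Free ℤ Q] [Module.Finite ℤ Q] [Module.Free ℤ Q1] [Module.Finite ℤ Q1]
    [Module.Free ℤ Q'] [Module.Finite ℤ Q'] (μ : Q1 →ₗ[ℤ] Q) (hμ : Function.Injective μ)
    (π : Q →ₗ[ℤ] Q') (hπ : Function.Surjective π) (hπμ : ∀ x, π (μ x) = 0) (Z : Set Q)
    (hZ0 : ∀ z ∈ Z, π z = 0)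
    (hZ : ∀ x : Q, π x = 0 → ∃ n : ℤ, n ≠ 0 ∧ n • x ∈ Submodule.span ℤ (Set.range μ ∪ Z))
    (s : Finset ι) (v : ι → Q) (s1 : Finset ι1) (v1 : ι1 → Q1) (v' : ι → Q')
    (hv' : ∀ i ∈ s, π (v i) = v' i) (A C : ℕ) (hA : ∀ i ∈ s1, μ (v1 i) ∈ Ball s v A)
    (hC : ∀ z ∈ Z, z ∈ Ball s v C) :
    finrank ℤ Q1 + finrank ℤ Q' ≤ finrank ℤ Q ∧
    ht s1 v1 * ht s v' ≤ A ^ (finrank ℤ Q1) * C ^ (finrank ℤ Q - finrank ℤ Q1 - finrank ℤ Q') * ht s v := by
  classical
  obtain ⟨e, z, σ, hz, h⟩ := det_lower μ hμ π hπ hπμ Z hZ0 hZ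
  have hcard := Fintype.card_congr σ
  simp only [Fintype.card_fin, Fintype.card_sum] at hcard
  refine ⟨by omega, ?_⟩
  rcases ht_eq s1 v1 with h1 | ⟨g1, hg1, hg1'⟩
  · rw [h1]; simp
  rcases ht_eq s v' with h2 | ⟨g2, hg2, hg2'⟩
  · rw [h2]; simp
  have h3 := h (fun i => v1 (g1 i)) (fun i => v (g2 i))
  have h4 : (fun i => π (v (g2 i))) = fun i => v' (g2 i) := funext fun i => hv' _ (hg2 i)
  rw [h4] at h3
  let W : (Fin (finrank ℤ Q1) ⊕ Fin e) ⊕ Fin (finrank ℤ Q') → ℕ :=
    Sum.elim (Sum.elim (fun _ => A) (fun _ => C)) (fun _ => 1)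
  have h5 := abs_multilinear_le (finBasis ℤ Q).det.toMultilinearMap s v (ht s v) (by
    intro g hg
    have := natAbs_det_le_ht s v g hg
    rw [← Int.natCast_natAbs]
    exact_mod_cast this) (fun i => W (σ i))
    (fun i => Sum.elim (Sum.elim (fun i => μ (v1 (g1 i))) z) (fun i => v (g2 i)) (σ i)) (by
      intro i
      generalize σ i = j
      rcases j with (j | j) | j
      · exact hA _ (hg1 j)
      · exact hC _ (hz j)
      · exact mem_ball_one s v (hg2 j))
  have h6 : ∏ i, (W (σ i) : ℤ) = (A : ℤ) ^ (finrank ℤ Q1) * (C : ℤ) ^ e := by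
    rw [Equiv.prod_comp σ (fun j => (W j : ℤ))]
    simp [W, Fintype.prod_sum_type]
  rw [h6] at h5
  have h7 : e = finrank ℤ Q - finrank ℤ Q1 - finrank ℤ Q' := by omega
  rw [← h7]
  have h8 := h3.trans h5
  rw [← Int.natCast_natAbs, ← Int.natCast_natAbs, hg1', hg2'] at h8
  exact_mod_cast h8

end Step

end Pool.Agent.W_MP_78a2de_al_h8
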