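import Pool.Agent.W_MP_78a2de_al_h8.Defs
import Pool.Agent.W_MP_78a2de_al_h8.Height

/-!
# Growth of sumsets in quotients of `Z^J` (helper8)
-/

set_option autoImplicit false

namespace Pool.Agent.W_MP_78a2de_al_h8

open Finset Module

section Step

variable {M M' : Type} [AddCommGroup M] [AddCommGroup M'] [DecidableEq M']

/-- Step of the sumset inequality: `φ` kills exactly the multiples of `w = u - v`. -/
theorem sumset_step (S : ℕ → Finset M) (u v : M) (hu : ∀ N, ∀ x ∈ S N, x + u ∈ S (N + 2))
    (hv : ∀ N, ∀ x ∈ S N, x + v ∈ S (N + 2)) (hw : ∀ n : ℤ, n • (u - v) = 0 → n = 0)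
    (φ : M →+ M') (hφ0 : φ (u - v) = 0) (N : ℕ) :
    ∑ i ∈ range (N / 2 + 1), ((S (N - 2 * i)).image φ).card ≤ (S N).card := by
  classical
  -- maximal lifts
  have hmax : ∀ (n : ℕ) (C : M'), C ∈ (S n).image φ →
      ∃ s ∈ S n, φ s = C ∧ ∀ t : ℕ, 0 < t → s + (t : ℤ) • (u - v) ∉ S n := by
    intro n C hC
    obtain ⟨s0, hs0, hs0C⟩ := Finset.mem_image.1 hC
    have hinj : Function.Injective fun t : ℤ => s0 + t • (u - v) := by
      intro a b hab
      have h1 : (a - b) • (u - v) = 0 := by
        have h2 : a • (u - v) = b • (u - v) := add_left_cancel hab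
        rw [sub_smul, h2, sub_self]
      exact sub_eq_zero.1 (hw _ h1)
    have hfin : {t : ℤ | s0 + t • (u - v) ∈ S n}.Finite := by
      refine Set.Finite.preimage (hinj.injOn) (S n).finite_toSet
    have hne : {t : ℤ | s0 + t • (u - v) ∈ S n}.Nonempty := ⟨0, by simpa using hs0⟩
    obtain ⟨t, ht, htmax⟩ := hfin.exists_maximal hne
    refine ⟨s0 + t • (u - v), ht, ?_, ?_⟩
    · rw [map_add, map_zsmul, hφ0, smul_zero, add_zero, hs0C]
    · intro r hr hmem
      have h1 : s0 + (t + (r : ℤ)) • (u - v) ∈ S n := by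
        rw [add_smul, ← add_assoc]; exact hmem
      have h2 := htmax h1 (by omega : t ≤ t + (r : ℤ))
      omega
  have hmax' : ∀ p : ℕ × M', ∃ s : M, p.2 ∈ (S p.1).image φ →
      s ∈ S p.1 ∧ φ s = p.2 ∧ ∀ t : ℕ, 0 < t → s + (t : ℤ) • (u - v) ∉ S p.1 := by
    intro p
    by_cases h : p.2 ∈ (S p.1).image φ
    · obtain ⟨s, h1, h2, h3⟩ := hmax p.1 p.2 h
      exact ⟨s, fun _ => ⟨h1, h2, h3⟩⟩
    · exact ⟨0, fun hh => absurd hh h⟩
  choose s hs using hmax'
  have hvi : ∀ (i n : ℕ), ∀ x ∈ S n, x + i • v ∈ S (n + 2 * i) := by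
    intro i
    induction i with
    | zero => intro n x hx; simpa using hx
    | succ i ih =>
      intro n x hx
      have := hv _ _ (ih n x hx)
      rw [succ_nsmul, ← add_assoc]
      exact this
  have hui : ∀ (i n : ℕ), ∀ x ∈ S n, x + i • u ∈ S (n + 2 * i) := by
    intro i
    induction i with
    | zero => intro n x hx; simpa using hx
    | succ i ih =>
      intro n x hx
      have := hu _ _ (ih n x hx)
      rw [succ_nsmul, ← add_assoc]
      exact this
  rw [← Finset.card_sigma]
  refine Finset.card_le_card_of_injOn (fun p => s (N - 2 * p.1, p.2) + p.1 • v) ?_ ?_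
  · rintro ⟨i, C⟩ hp
    simp only [Finset.coe_sigma, Set.mem_sigma_iff, Finset.mem_coe, Finset.mem_range] at hp
    obtain ⟨h1, -, -⟩ := hs (N - 2 * i, C) hp.2
    have := hvi i _ _ h1
    simp only [Finset.mem_coe]
    rwa [show N - 2 * i + 2 * i = N by omega] at this
  · -- injectivity
    have key : ∀ (i i' : ℕ) (C C' : M'), i ≤ N / 2 → i' ≤ N / 2 → C ∈ (S (N - 2 * i)).image φ →
        C' ∈ (S (N - 2 * i')).image φ → s (N - 2 * i, C) + i • v = s (N - 2 * i', C') + i' • v →
        ¬ i' < i := by
      intro i i' C C' hi hi' hC hC' heq hlt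
      obtain ⟨h1, -, -⟩ := hs (N - 2 * i, C) hC
      obtain ⟨-, -, h3⟩ := hs (N - 2 * i', C') hC'
      obtain ⟨t, rfl⟩ : ∃ t, i = i' + t := ⟨i - i', by omega⟩
      have e1 : s (N - 2 * i', C') = s (N - 2 * (i' + t), C) + t • v := by
        have : s (N - 2 * (i' + t), C) + (i' + t) • v
            = (s (N - 2 * (i' + t), C) + t • v) + i' • v := by
          rw [add_nsmul]; abel
        rw [this] at heq
        exact (add_right_cancel heq).symm
      have h4 := hui t _ _ h1
      simp only at h4
      rw [show N - 2 * (i' + t) + 2 * t = N - 2 * i' by omega] at h4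
      apply h3 t (by omega)
      simp only
      rw [e1]
      have e2 : s (N - 2 * (i' + t), C) + t • v + (t : ℤ) • (u - v)
          = s (N - 2 * (i' + t), C) + t • u := by
        rw [natCast_zsmul, nsmul_sub]; abel
      rw [e2]
      exact h4
    rintro ⟨i, C⟩ hp ⟨i', C'⟩ hp' heq
    simp only [Finset.coe_sigma, Set.mem_sigma_iff, Finset.mem_coe, Finset.mem_range] at hp hp'
    simp only at heq
    have h1 := key i i' C C' (by omega) (by omega) hp.2 hp'.2 heq
    have h2 := key i' i C' C (by omega) (by omega) hp'.2 hp.2 heq.symm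
    have h3 : i = i' := by omega
    subst h3
    have h4 : s (N - 2 * i, C) = s (N - 2 * i, C') := add_right_cancel heq
    have h5 := (hs (N - 2 * i, C) hp.2).2.1
    have h6 := (hs (N - 2 * i, C') hp'.2).2.1
    simp only at h5 h6
    rw [← h5, ← h6, h4]

end Step

/-- Iterated step-two sums. -/
def T2 (x : ℕ → ℕ) (N : ℕ) : ℕ := ∑ i ∈ range (N / 2 + 1), x (N - 2 * i)

theorem T2_mono {x y : ℕ → ℕ} (h : ∀ N, x N ≤ y N) (N : ℕ) : T2 x N ≤ T2 y N :=
  Finset.sum_le_sum fun _ _ => h _

theorem T2_iter_mono (k : ℕ) {x y : ℕ → ℕ} (h : ∀ N, x N ≤ y N) (N : ℕ) :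
    T2^[k] x N ≤ T2^[k] y N := by
  induction k generalizing x y with
  | zero => exact h N
  | succ k ih =>
    rw [Function.iterate_succ_apply, Function.iterate_succ_apply]
    exact ih (fun n => T2_mono h n)

section Monos

variable {J : Type} [Fintype J] [DecidableEq J]

/-- Exponents of degree at most `n`. -/
noncomputable def monos (J : Type) [Fintype J] (n : ℕ) : Finset (J →₀ ℕ) :=
  (Finsupp.finite_of_degree_le (σ := J) n).toFinset

theorem mem_monos {n : ℕ} {α : J →₀ ℕ} : α ∈ monos J n ↔ α.degree ≤ n := by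
  simp [monos]

theorem card_monos_le (n : ℕ) : (monos J n).card ≤ (n + Fintype.card J).choose (Fintype.card J) := by
  classical
  have h1 := Finset.card_finsuppAntidiag_nat_eq_choose (s := (Finset.univ : Finset (Option J))) n
  have h2 : (monos J n).card ≤ ((Finset.univ : Finset (Option J)).finsuppAntidiag n).card := by
    refine Finset.card_le_card_of_injOn
      (fun α => Finsupp.equivFunOnFinite.symm (fun o : Option J => o.elim (n - α.degree) α)) ?_ ?_
    · intro α hα
      have hα' : α.degree ≤ n := mem_monos.1 hα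
      simp only [Finset.mem_coe, Finset.mem_finsuppAntidiag, Finset.subset_univ, and_true]
      rw [Fintype.sum_option]
      simp only [Finsupp.equivFunOnFinite_symm_apply_apply, Option.elim_none, Option.elim_some]
      have : ∑ j, α j = α.degree := by rw [Finsupp.degree_eq_sum]
      omega
    · intro α _ β _ h
      ext j
      have := DFunLike.congr_fun h (some j)
      simpa using this
  rw [h1] at h2
  refine h2.trans (le_of_eq ?_)
  rw [Finset.card_univ, Fintype.card_option]
  have e1 : Fintype.card J + 1 + n - 1 = n + Fintype.card J := by omega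
  rw [e1, Nat.choose_symm_add]

/-- Integer vector of an exponent. -/
def toInt (α : J →₀ ℕ) : J → ℤ := fun j => (α j : ℤ)

omit [Fintype J] [DecidableEq J] in
theorem toInt_add (α β : J →₀ ℕ) : toInt (α + β) = toInt α + toInt β := by
  funext j; simp [toInt]

/-- Exponent of a generalized variable. -/
noncomputable def nvec (o : Option J) : J →₀ ℕ := o.elim 0 (fun j => Finsupp.single j 1)

omit [Fintype J] in
theorem toInt_nvec (o : Option J) : toInt (nvec o) = vec o := by
  cases o with
  | none => funext j; simp [toInt, nvec]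
  | some i =>
    funext j
    by_cases h : i = j
    · subst h; simp [toInt, nvec]
    · simp [toInt, nvec, h, Finsupp.single_apply, Pi.single_apply, Ne.symm h]

omit [Fintype J] [DecidableEq J] in
theorem degree_nvec_le (o : Option J) : (nvec o).degree ≤ 1 := by
  cases o with
  | none => simp [nvec]
  | some i => simp [nvec]

/-- Classes of exponents of degree at most `n` modulo a lattice. -/
noncomputable def classes (Γ : Submodule ℤ (J → ℤ)) (n : ℕ) : Finset ((J → ℤ) ⧸ Γ) := by
  classical
  exact (monos J n).image fun α => Γ.mkQ (toInt α)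

theorem mem_classes (Γ : Submodule ℤ (J → ℤ)) (n : ℕ) (x : (J → ℤ) ⧸ Γ) :
    x ∈ classes Γ n ↔ ∃ α : J →₀ ℕ, α.degree ≤ n ∧ Γ.mkQ (toInt α) = x := by
  classical
  simp [classes, mem_monos]

theorem card_classes_anti {Γ Γ' : Submodule ℤ (J → ℤ)} (h : Γ ≤ Γ') (n : ℕ) :
    (classes Γ' n).card ≤ (classes Γ n).card := by
  classical
  have : classes Γ' n = (classes Γ n).image (Submodule.mapQ Γ Γ' LinearMap.id h) := by
    ext x
    simp only [mem_classes, Finset.mem_image]
    constructor
    · rintro ⟨α, h1, rfl⟩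
      exact ⟨_, ⟨α, h1, rfl⟩, rfl⟩
    · rintro ⟨_, ⟨α, h1, rfl⟩, rfl⟩
      exact ⟨α, h1, rfl⟩
  rw [this]
  exact Finset.card_image_le

theorem classes_step (Γ : Submodule ℤ (J → ℤ)) (a b c : Option J)
    (hw : ∀ n : ℤ, n • (vec a + vec b - vec c : J → ℤ) ∈ Γ → n = 0) (N : ℕ) :
    T2 (fun n => (classes (Γ ⊔ Submodule.span ℤ {vec a + vec b - vec c}) n).card) N ≤
      (classes Γ N).card := by
  classical
  set Γ' := Γ ⊔ Submodule.span ℤ {vec a + vec b - vec c} with hΓ'
  let φ : (J → ℤ) ⧸ Γ →ₗ[ℤ] (J → ℤ) ⧸ Γ' := Submodule.mapQ Γ Γ' LinearMap.id le_sup_left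
  have hφ : ∀ x, φ (Γ.mkQ x) = Γ'.mkQ x := fun x => rfl
  have himg : ∀ n, (classes Γ n).image φ.toAddMonoidHom = classes Γ' n := by
    intro n
    ext x
    simp only [mem_classes, Finset.mem_image]
    constructor
    · rintro ⟨_, ⟨α, h1, rfl⟩, rfl⟩
      exact ⟨α, h1, rfl⟩
    · rintro ⟨α, h1, rfl⟩
      exact ⟨_, ⟨α, h1, rfl⟩, rfl⟩
  have hadd : ∀ (o : Option J) (n : ℕ), ∀ x ∈ classes Γ n, x + Γ.mkQ (vec o) ∈ classes Γ (n + 1) := by
    intro o n x hx
    rw [mem_classes] at hx ⊢
    obtain ⟨α, h1, rfl⟩ := hx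
    refine ⟨α + nvec o, ?_, ?_⟩
    · rw [map_add]
      have := degree_nvec_le o
      omega
    · rw [toInt_add, map_add, toInt_nvec]
  have hmono : ∀ n, classes Γ n ⊆ classes Γ (n + 1) := by
    intro n x hx
    rw [mem_classes] at hx ⊢
    obtain ⟨α, h1, rfl⟩ := hx
    exact ⟨α, by omega, rfl⟩
  have key := sumset_step (classes Γ) (Γ.mkQ (vec a + vec b)) (Γ.mkQ (vec c)) ?_ ?_ ?_
    φ.toAddMonoidHom ?_ N
  · simp only [himg] at key
    exact key
  · intro n x hx
    have := hadd b _ _ (hadd a n x hx)
    rw [map_add, ← add_assoc]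
    exact this
  · intro n x hx
    exact hmono _ (hadd c n x hx)
  · intro n hn
    apply hw n
    rw [← map_sub, ← map_smul] at hn
    exact (Submodule.Quotient.mk_eq_zero _).1 hn
  · show φ (Γ.mkQ (vec a + vec b) - Γ.mkQ (vec c)) = 0
    rw [← map_sub, hφ]
    exact (Submodule.Quotient.mk_eq_zero _).2 (Submodule.mem_sup_right (Submodule.mem_span_singleton_self _))

theorem classes_chain (k : ℕ) (r : Fin k → Option J × Option J × Option J)
    (hr : LinearIndependent ℤ (fun i => (relVec (r i) : J → ℤ))) (N : ℕ) :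
    T2^[k] (fun n => (classes (Submodule.span ℤ (Set.range fun i => (relVec (r i) : J → ℤ))) n).card) N
      ≤ (N + Fintype.card J).choose (Fintype.card J) := by
  induction k with
  | zero =>
    simp only [Function.iterate_zero, id_eq]
    have : (classes (Submodule.span ℤ (Set.range fun i => (relVec (r i) : J → ℤ))) N).card ≤
        (monos J N).card := by
      classical
      exact Finset.card_image_le
    exact this.trans (card_monos_le N)
  | succ k ih =>
    have h1 : LinearIndependent ℤ (fun i : Fin k => (relVec (r i.castSucc) : J → ℤ)) :=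
      hr.comp _ (Fin.castSucc_injective k)
    refine le_trans ?_ (ih (fun i => r i.castSucc) h1)
    rw [Function.iterate_succ_apply]
    refine T2_iter_mono k (fun n => ?_) N
    have h2 := classes_step (Submodule.span ℤ (Set.range fun i : Fin k => (relVec (r i.castSucc) : J → ℤ)))
      (r (Fin.last k)).1 (r (Fin.last k)).2.1 (r (Fin.last k)).2.2 ?_ n
    · have h3 : Submodule.span ℤ (Set.range fun i => (relVec (r i) : J → ℤ)) =
          Submodule.span ℤ (Set.range fun i : Fin k => (relVec (r i.castSucc) : J → ℤ)) ⊔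
          Submodule.span ℤ {vec (r (Fin.last k)).1 + vec (r (Fin.last k)).2.1 - vec (r (Fin.last k)).2.2} := by
        rw [← Submodule.span_union]
        congr 1
        ext x
        simp only [Set.mem_range, Set.mem_union, Set.mem_singleton_iff]
        constructor
        · rintro ⟨i, rfl⟩
          refine Fin.lastCases ?_ (fun j => ?_) i
          · right; rfl
          · left; exact ⟨j, rfl⟩
        · rintro (⟨j, rfl⟩ | rfl)
          · exact ⟨_, rfl⟩
          · exact ⟨Fin.last k, rfl⟩
      rw [h3]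
      exact h2
    · intro n hn
      obtain ⟨c, hc⟩ := (Submodule.mem_span_range_iff_exists_fun ℤ).1 hn
      have h4 := Fintype.linearIndependent_iff.1 hr (Fin.snoc c (-n)) (by
        rw [Fin.sum_univ_castSucc]
        simp only [Fin.snoc_castSucc, Fin.snoc_last, neg_smul]
        rw [hc, ← sub_eq_add_neg]
        exact sub_self _) (Fin.last k)
      rw [Fin.snoc_last] at h4
      omega

/-- A maximal independent family of product relations. -/
theorem exists_independent_relations (K : Finset (Option J × Option J × Option J)) :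
    ∃ r : Fin (relRank K) → Option J × Option J × Option J, (∀ i, r i ∈ K) ∧
      LinearIndependent ℤ (fun i => (relVec (r i) : J → ℤ)) := by
  obtain ⟨z, hz, hz'⟩ := exists_completion (M := relLat K)
    {x : relLat K | ∃ r ∈ K, (x : J → ℤ) = relVec r} (finrank ℤ (relLat K)) (κ := Fin 0) Fin.elim0
    (by rw [Fintype.linearIndependent_iff]; intro g _ i; exact i.elim0) (by
      intro x
      refine ⟨1, one_ne_zero, ?_⟩
      rw [one_smul]
      have h1 : (x : J → ℤ) ∈ (Submodule.span ℤ (Set.range (Fin.elim0 : Fin 0 → relLat K) ∪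
          {x : relLat K | ∃ r ∈ K, (x : J → ℤ) = relVec r})).map (relLat K).subtype := by
        have h2 : relLat K ≤ (Submodule.span ℤ (Set.range (Fin.elim0 : Fin 0 → relLat K) ∪
          {x : relLat K | ∃ r ∈ K, (x : J → ℤ) = relVec r})).map (relLat K).subtype := by
          conv_lhs => rw [relLat]
          rw [Submodule.span_le]
          rintro _ ⟨r, hr, rfl⟩
          have hmem : relVec r ∈ relLat K := Submodule.subset_span ⟨r, hr, rfl⟩
          exact ⟨⟨relVec r, hmem⟩, Submodule.subset_span (Or.inr ⟨r, hr, rfl⟩), rfl⟩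
        exact h2 x.2
      obtain ⟨y, hy, hy'⟩ := h1
      have : y = x := Subtype.ext hy'
      rwa [← this]) (by simp)
  have hz2 : ∀ i, ∃ r ∈ K, ((z i : relLat K) : J → ℤ) = relVec r := fun i => hz i
  choose r hr hr' using hz2
  refine ⟨r, hr, ?_⟩
  have h3 : LinearIndependent ℤ z := by
    have := hz'.comp (Sum.inr : Fin (finrank ℤ (relLat K)) → _) Sum.inr_injective
    exact this
  have h4 := h3.map' (relLat K).subtype (Submodule.ker_subtype _)
  have h5 : (fun i => (relVec (r i) : J → ℤ)) = (relLat K).subtype ∘ z := by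
    funext i
    exact (hr' i).symm
  exact h5 ▸ h4

/-- The main counting inequality: classes modulo the product relations. -/
theorem classes_bound (K : Finset (Option J × Option J × Option J)) (N : ℕ) :
    T2^[relRank K] (fun n => (classes (relLat K) n).card) N ≤
      (N + Fintype.card J).choose (Fintype.card J) := by
  obtain ⟨r, hr, hr'⟩ := exists_independent_relations K
  refine le_trans (T2_iter_mono _ (fun n => ?_) N) (classes_chain _ r hr' N)
  apply card_classes_anti
  rw [Submodule.span_le]
  rintro _ ⟨i, rfl⟩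
  exact Submodule.subset_span ⟨r i, hr i, rfl⟩

end Monos

end Pool.Agent.W_MP_78a2de_al_h8
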