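import Pool.Agent.W_MP_78a2de_al_h8.Network

/-!
# Common definitions for the proof of the modulus bound (helper8)

`J` indexes the nonzero coordinates different from `x_1 = 1`; `none : Option J` stands for the
coordinate which is equal to `1`.
-/

set_option autoImplicit false

namespace Pool.Agent.W_MP_78a2de_al_h8

open Finset Module

section Defs

variable {J : Type} [Fintype J] [DecidableEq J]

/-- Value of a generalized coordinate. -/
def val {R : Type} [One R] (x : J → R) (o : Option J) : R := o.elim 1 x

omit [Fintype J] [DecidableEq J] in
@[simp] theorem val_none {R : Type} [One R] (x : J → R) : val x none = 1 := rfl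

omit [Fintype J] [DecidableEq J] in
@[simp] theorem val_some {R : Type} [One R] (x : J → R) (j : J) : val x (some j) = x j := rfl

/-- The exponent vector of a product relation `a * b = c`. -/
def relVec (r : Option J × Option J × Option J) : J → ℤ := vec r.1 + vec r.2.1 - vec r.2.2

/-- The lattice spanned by the product relations. -/
def relLat (K : Finset (Option J × Option J × Option J)) : Submodule ℤ (J → ℤ) :=
  Submodule.span ℤ (relVec '' (K : Set (Option J × Option J × Option J)))

/-- Rank of the product relations. -/
noncomputable def relRank (K : Finset (Option J × Option J × Option J)) : ℕ :=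
  finrank ℤ (relLat K)

/-- Solutions of the products `K`, the sums `F` and the equations `x_a + x_b = 0` in `F2`. -/
def Sol (K F : Finset (Option J × Option J × Option J)) (F2 : Finset (Option J × Option J)) :
    Set (J → ℂ) :=
  {x | (∀ r ∈ K, val x r.1 * val x r.2.1 = val x r.2.2) ∧
    (∀ r ∈ F, val x r.1 + val x r.2.1 = val x r.2.2) ∧ (∀ r ∈ F2, val x r.1 + val x r.2 = 0)}

/-- A sum relation is genuine: its three classes modulo the product lattice are pairwise distinct,
and they do not all coincide modulo torsion. -/
def Genuine (K : Finset (Option J × Option J × Option J)) (r : Option J × Option J × Option J) :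
    Prop :=
  vec r.1 - vec r.2.1 ∉ relLat K ∧ vec r.1 - vec r.2.2 ∉ relLat K ∧
  vec r.2.1 - vec r.2.2 ∉ relLat K ∧
  ¬ ∃ n : ℤ, n ≠ 0 ∧ n • (vec r.1 - vec r.2.1 : J → ℤ) ∈ relLat K ∧
    n • (vec r.1 - vec r.2.2 : J → ℤ) ∈ relLat K

end Defs

end Pool.Agent.W_MP_78a2de_al_h8
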