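import Pool.Agent.W_MP_78a2de_al_h8.Height

/-!
# Hadamard inequality and the first cut (helper8)
-/

set_option autoImplicit false

namespace Pool.Agent.W_MP_78a2de_al_h8

open Module Finset

theorem hadamard_real {r : ℕ} (M : Matrix (Fin r) (Fin r) ℝ) :
    |M.det| ≤ ∏ i, Real.sqrt (∑ j, (M i j) ^ 2) := by
  classical
  haveI : Fact (finrank ℝ (EuclideanSpace ℝ (Fin r)) = r) := ⟨by simp⟩
  let b := EuclideanSpace.basisFun (Fin r) ℝ
  let o := b.toBasis.orientation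
  have h1 := o.abs_volumeForm_apply_le (fun i => WithLp.toLp 2 (M i))
  rw [o.volumeForm_robust b rfl, Basis.det_apply] at h1
  have h2 : b.toBasis.toMatrix (fun i => WithLp.toLp 2 (M i)) = M.transpose := by
    ext i j
    simp [Basis.toMatrix_apply, b]
  rw [h2, Matrix.det_transpose] at h1
  refine h1.trans (le_of_eq ?_)
  refine Finset.prod_congr rfl fun i _ => ?_
  rw [EuclideanSpace.norm_eq]
  simp

theorem hadamard_int {r : ℕ} (M : Matrix (Fin r) (Fin r) ℤ) :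
    M.det ^ 2 ≤ ∏ i, ∑ j, (M i j) ^ 2 := by
  have h1 := hadamard_real (M.map (fun x : ℤ => (x : ℝ)))
  have h2 : (M.map (fun x : ℤ => (x : ℝ))).det = (M.det : ℝ) := by
    have := (Int.castRingHom ℝ).map_det M
    rw [RingHom.mapMatrix_apply] at this
    exact this.symm
  rw [h2] at h1
  have h3 := pow_le_pow_left₀ (abs_nonneg _) h1 2
  rw [sq_abs, ← Finset.prod_pow] at h3
  have h4 : ∀ i, Real.sqrt (∑ j, (M.map (fun x : ℤ => (x : ℝ)) i j) ^ 2) ^ 2 = ((∑ j, (M i j) ^ 2 : ℤ) : ℝ) := by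
    intro i
    rw [Real.sq_sqrt (Finset.sum_nonneg fun j _ => sq_nonneg _)]
    push_cast
    simp
  simp only [h4] at h3
  exact_mod_cast h3

/-- First cut: the ambient lattice is free on `ι` and `Q1` is free on `ι1`. -/
theorem ht_first {ι ι1 Q' : Type} [Fintype ι] [DecidableEq ι] [Fintype ι1] [DecidableEq ι1]
    [AddCommGroup Q'] [Module.Free ℤ Q'] [Module.Finite ℤ Q']
    (μ : (ι1 → ℤ) →ₗ[ℤ] (ι → ℤ)) (hμ : Function.Injective μ)
    (π : (ι → ℤ) →ₗ[ℤ] Q') (hπ : Function.Surjective π) (hπμ : ∀ x, π (μ x) = 0) (Z : Set (ι → ℤ))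
    (hZ0 : ∀ z ∈ Z, π z = 0)
    (hZ : ∀ x : ι → ℤ, π x = 0 → ∃ n : ℤ, n ≠ 0 ∧ n • x ∈ Submodule.span ℤ (Set.range μ ∪ Z))
    (A C : ℕ) (hA : ∀ i : ι1, ∑ j, (μ (Pi.single i 1) j) ^ 2 ≤ (A : ℤ))
    (hC : ∀ z ∈ Z, ∑ j, (z j) ^ 2 ≤ (C : ℤ)) :
    Fintype.card ι1 + finrank ℤ Q' ≤ Fintype.card ι ∧
    (ht Finset.univ (fun i : ι => π (Pi.single i 1))) ^ 2 ≤
      A ^ (Fintype.card ι1) * C ^ (Fintype.card ι - Fintype.card ι1 - finrank ℤ Q') := by
  classical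
  obtain ⟨e, z, σ, hz, h⟩ := det_lower μ hμ π hπ hπμ Z hZ0 hZ
  have hfr : finrank ℤ (ι → ℤ) = Fintype.card ι := finrank_fintype_fun_eq_card ℤ
  have hfr1 : finrank ℤ (ι1 → ℤ) = Fintype.card ι1 := finrank_fintype_fun_eq_card ℤ
  have hcard := Fintype.card_congr σ
  simp only [Fintype.card_fin, Fintype.card_sum] at hcard
  refine ⟨by omega, ?_⟩
  rcases ht_eq Finset.univ (fun i : ι => π (Pi.single i 1)) with h2 | ⟨g2, hg2, hg2'⟩
  · rw [h2]; simp
  let τ1 : Fin (finrank ℤ (ι1 → ℤ)) ≃ ι1 := (finCongr hfr1).trans (Fintype.equivFin ι1).symm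
  let τ : ι ≃ Fin (finrank ℤ (ι → ℤ)) := (Fintype.equivFin ι).trans (finCongr hfr.symm)
  have h3 := h (fun i => Pi.single (τ1 i) 1) (fun i => Pi.single (g2 i) 1)
  have hunit : 1 ≤ |(finBasis ℤ (ι1 → ℤ)).det (fun i => Pi.single (τ1 i) 1)| := by
    have h4 := Basis.isUnit_det (finBasis ℤ (ι1 → ℤ)) ((Pi.basisFun ℤ ι1).reindex τ1.symm)
    have h5 : ((Pi.basisFun ℤ ι1).reindex τ1.symm : Fin (finrank ℤ (ι1 → ℤ)) → (ι1 → ℤ))
        = fun i => Pi.single (τ1 i) 1 := by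
      funext i
      simp
    rw [h5] at h4
    exact Int.one_le_abs h4.ne_zero
  let B := (Pi.basisFun ℤ ι).reindex τ
  let X : Fin (finrank ℤ (ι → ℤ)) → (ι → ℤ) := fun i =>
    Sum.elim (Sum.elim (fun i => μ (Pi.single (τ1 i) 1)) z) (fun i => Pi.single (g2 i) 1) (σ i)
  have hB : |(finBasis ℤ (ι → ℤ)).det X| = |B.det X| := by
    have h4 := AlternatingMap.eq_smul_basis_det B (finBasis ℤ (ι → ℤ)).det
    have h5 : (finBasis ℤ (ι → ℤ)).det X = (finBasis ℤ (ι → ℤ)).det B * B.det X := by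
      conv_lhs => rw [h4]
      rfl
    have h6 := Basis.isUnit_det (finBasis ℤ (ι → ℤ)) B
    rw [h5, abs_mul, Int.isUnit_iff_abs_eq.1 h6, one_mul]
  have hBX : B.det X ^ 2 ≤ ∏ i, ∑ j, (X i j) ^ 2 := by
    rw [Basis.det_apply, ← Matrix.det_transpose]
    refine (hadamard_int _).trans (le_of_eq ?_)
    refine Finset.prod_congr rfl fun i _ => ?_
    rw [← Equiv.sum_comp τ]
    refine Finset.sum_congr rfl fun j _ => ?_
    simp [Basis.toMatrix_apply, B]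
  let W : (Fin (finrank ℤ (ι1 → ℤ)) ⊕ Fin e) ⊕ Fin (finrank ℤ Q') → ℤ :=
    Sum.elim (Sum.elim (fun _ => (A : ℤ)) (fun _ => (C : ℤ))) (fun _ => 1)
  have hW : ∏ i, ∑ j, (X i j) ^ 2 ≤ ∏ i, W (σ i) := by
    refine Finset.prod_le_prod (fun i _ => Finset.sum_nonneg fun j _ => sq_nonneg _) fun i _ => ?_
    simp only [X]
    generalize σ i = j
    rcases j with (j | j) | j
    · exact hA _
    · exact hC _ (hz j)
    · simp only [Sum.elim_inr, W]
      rw [Finset.sum_eq_single (g2 j)]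
      · simp
      · intro k _ hk; simp [Pi.single_eq_of_ne hk]
      · simp
  have hWe : ∏ i, W (σ i) = (A : ℤ) ^ (finrank ℤ (ι1 → ℤ)) * (C : ℤ) ^ e := by
    rw [Equiv.prod_comp σ W]
    simp [W, Fintype.prod_sum_type]
  have h7 : ((ht Finset.univ (fun i : ι => π (Pi.single i 1)) : ℕ) : ℤ) ≤ |B.det X| := by
    rw [← hg2', Int.natCast_natAbs, ← hB]
    calc |(finBasis ℤ Q').det (fun i => π (Pi.single (g2 i) 1))|
        = 1 * |(finBasis ℤ Q').det (fun i => π (Pi.single (g2 i) 1))| := by ring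
      _ ≤ |(finBasis ℤ (ι1 → ℤ)).det (fun i => Pi.single (τ1 i) 1)| *
          |(finBasis ℤ Q').det (fun i => π (Pi.single (g2 i) 1))| := by gcongr
      _ ≤ _ := h3
  have h8 : ((ht Finset.univ (fun i : ι => π (Pi.single i 1)) : ℕ) : ℤ) ^ 2 ≤
      (A : ℤ) ^ (finrank ℤ (ι1 → ℤ)) * (C : ℤ) ^ e := by
    calc _ ≤ |B.det X| ^ 2 := by gcongr
      _ = B.det X ^ 2 := sq_abs _
      _ ≤ _ := hBX.trans (hW.trans (le_of_eq hWe))
  have h9 : e = Fintype.card ι - Fintype.card ι1 - finrank ℤ Q' := by omega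
  rw [h9, hfr1] at h8
  exact_mod_cast h8

end Pool.Agent.W_MP_78a2de_al_h8
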